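import Mathlib

/-!
A polynomial of degree at most `d` that is small at more than `d * K` integer points has small
coefficients.
-/

set_option autoImplicit false

open Finset

namespace Pool.Agent.Helper8.UV3

theorem uni (d : ℕ) : ∀ (F : Polynomial ℝ), F.natDegree ≤ d → ∀ (P K : ℕ), 0 < K → K ≤ P →
    ∀ (b : ℝ), 0 ≤ b → ∀ (T : Finset ℕ), (∀ x ∈ T, b + x ≤ 2 * P) → ∀ τ : ℝ,
    (∀ x ∈ T, |F.eval (b + x)| ≤ τ) → d * K < T.card →
    ∀ r, |F.coeff r| * (P : ℝ) ^ r ≤ 7 ^ d * τ * ((P : ℝ) / K) ^ d := by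
  induction d with
  | zero =>
    intro F hF P K hK hKP b hb T hT τ hτ hcard r
    have hF0 : F = Polynomial.C (F.coeff 0) :=
      Polynomial.eq_C_of_natDegree_le_zero hF
    obtain ⟨x, hx⟩ : T.Nonempty := Finset.card_pos.1 (by omega)
    have h1 := hτ x hx
    rw [hF0, Polynomial.eval_C] at h1
    have hτ0 : 0 ≤ τ := (abs_nonneg _).trans h1
    rcases Nat.eq_zero_or_pos r with hr | hr
    · subst hr
      simpa using h1
    · rw [Polynomial.coeff_eq_zero_of_natDegree_lt (by omega)]
      simpa using hτ0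
  | succ d ih =>
    intro F hF P K hK hKP b hb T hT τ hτ hcard r
    have hKr : (0 : ℝ) < K := by exact_mod_cast hK
    have hKPr : (K : ℝ) ≤ P := by exact_mod_cast hKP
    have hP0 : (0 : ℝ) < P := lt_of_lt_of_le hKr hKPr
    have hne : T.Nonempty := Finset.card_pos.1 (by omega)
    set t0 := T.min' hne with ht0
    have ht0T : t0 ∈ T := T.min'_mem hne
    have hτ0 : 0 ≤ τ := (abs_nonneg _).trans (hτ t0 ht0T)
    set a : ℝ := b + t0 with ha
    set T' := T.filter fun x => t0 + K ≤ x with hT'
    have hcard' : d * K < T'.card := by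
      have h1 : T ⊆ T' ∪ Finset.Ico t0 (t0 + K) := by
        intro x hx
        rw [mem_union, hT', mem_filter, mem_Ico]
        have := T.min'_le x hx
        rcases Nat.lt_or_ge x (t0 + K) with h | h
        · exact Or.inr ⟨this, h⟩
        · exact Or.inl ⟨hx, h⟩
      have h2 := (Finset.card_le_card h1).trans (Finset.card_union_le _ _)
      rw [Nat.card_Ico, Nat.add_sub_cancel_left] at h2
      rw [Nat.succ_mul] at hcard
      omega
    set h : Polynomial ℝ := F /ₘ (Polynomial.X - Polynomial.C a) with hh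
    have hdec : F = Polynomial.C (F.eval a) + (Polynomial.X - Polynomial.C a) * h := by
      have h1 := Polynomial.modByMonic_add_div F (Polynomial.X - Polynomial.C a)
      rw [Polynomial.modByMonic_X_sub_C_eq_C_eval] at h1
      exact h1.symm
    have hdeg : h.natDegree ≤ d := by
      rw [hh, Polynomial.natDegree_divByMonic F (Polynomial.monic_X_sub_C a),
        Polynomial.natDegree_X_sub_C]
      omega
    have hsmall : ∀ x ∈ T', |h.eval (b + x)| ≤ 2 * τ / K := by
      intro x hx
      rw [hT', mem_filter] at hx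
      have h1 := hτ x hx.1
      have h2 := hτ t0 ht0T
      have h3 : F.eval (b + x) = F.eval a + ((b + x) - a) * h.eval (b + x) := by
        conv_lhs => rw [hdec]
        simp
      have h4 : ((b + x) - a) = (x : ℝ) - t0 := by rw [ha]; ring
      have h5 : (K : ℝ) ≤ (x : ℝ) - t0 := by
        have : ((t0 + K : ℕ) : ℝ) ≤ x := by exact_mod_cast hx.2
        push_cast at this
        linarith
      rw [h4] at h3
      have h6 : ((x : ℝ) - t0) * |h.eval (b + x)| ≤ 2 * τ := by
        have h7 : ((x : ℝ) - t0) * h.eval (b + x) = F.eval (b + x) - F.eval a := by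
          rw [h3]; ring
        have h8 : |((x : ℝ) - t0) * h.eval (b + x)| ≤ |F.eval (b + x)| + |F.eval a| := by
          rw [h7]
          exact abs_sub _ _
        rw [abs_mul, abs_of_nonneg (by linarith : (0 : ℝ) ≤ (x : ℝ) - t0)] at h8
        linarith
      rw [le_div_iff₀ hKr]
      have h9 : |h.eval (b + x)| * K ≤ |h.eval (b + x)| * ((x : ℝ) - t0) :=
        mul_le_mul_of_nonneg_left h5 (abs_nonneg _)
      linarith
    have IH := ih h hdeg P K hK hKP b hb T'
      (fun x hx => hT x (Finset.mem_of_mem_filter x hx)) (2 * τ / K) hsmall hcard'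
    set H : ℝ := 7 ^ d * (2 * τ / K) * ((P : ℝ) / K) ^ d with hH
    have hH0 : 0 ≤ H := by positivity
    have ha0 : 0 ≤ a := by rw [ha]; positivity
    have ha2 : a ≤ 2 * P := hT t0 ht0T
    have hPK : 1 ≤ (P : ℝ) / K := by rwa [le_div_iff₀ hKr, one_mul]
    -- the coefficient
    have hbase : |F.coeff r| * (P : ℝ) ^ r ≤ τ + 3 * P * H := by
      have hr := IH r
      have e1 : a * (|h.coeff r| * (P : ℝ) ^ r) ≤ 2 * P * H :=
        mul_le_mul ha2 hr (by positivity) (by positivity)
      rcases Nat.eq_zero_or_pos r with h0 | h0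
      · subst h0
        have hc : F.coeff 0 = F.eval a - a * h.coeff 0 := by
          conv_lhs => rw [hdec]
          simp [Polynomial.mul_coeff_zero]
          ring
        have h2 : |F.coeff 0| ≤ |F.eval a| + a * |h.coeff 0| := by
          rw [hc]
          refine (abs_sub _ _).trans ?_
          rw [abs_mul, abs_of_nonneg ha0]
        have h3 := hτ t0 ht0T
        simp only [pow_zero, mul_one] at e1 ⊢
        have h4 : 0 ≤ P * H := by positivity
        linarith
      · obtain ⟨s, rfl⟩ : ∃ s, r = s + 1 := ⟨r - 1, by omega⟩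
        have hc : F.coeff (s + 1) = h.coeff s - a * h.coeff (s + 1) := by
          conv_lhs => rw [hdec]
          rw [Polynomial.coeff_add, Polynomial.coeff_C_succ, sub_mul, Polynomial.coeff_sub,
            Polynomial.coeff_X_mul, Polynomial.coeff_C_mul, zero_add]
        have h2 : |F.coeff (s + 1)| ≤ |h.coeff s| + a * |h.coeff (s + 1)| := by
          rw [hc]
          refine (abs_sub _ _).trans ?_
          rw [abs_mul, abs_of_nonneg ha0]
        have h3 := IH s
        have h4 : |h.coeff s| * (P : ℝ) ^ (s + 1) ≤ P * H := by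
          calc |h.coeff s| * (P : ℝ) ^ (s + 1) = P * (|h.coeff s| * (P : ℝ) ^ s) := by ring
            _ ≤ P * H := mul_le_mul_of_nonneg_left h3 hP0.le
        calc |F.coeff (s + 1)| * (P : ℝ) ^ (s + 1)
            ≤ (|h.coeff s| + a * |h.coeff (s + 1)|) * (P : ℝ) ^ (s + 1) :=
              mul_le_mul_of_nonneg_right h2 (by positivity)
          _ = |h.coeff s| * (P : ℝ) ^ (s + 1) + a * (|h.coeff (s + 1)| * (P : ℝ) ^ (s + 1)) := by
              ring
          _ ≤ τ + 3 * P * H := by linarith
    refine hbase.trans ?_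
    have e3 : 3 * P * H = 6 * (7 ^ d * τ * ((P : ℝ) / K) ^ (d + 1)) := by
      rw [hH, pow_succ ((P : ℝ) / K)]
      field_simp
      ring
    have e4 : τ ≤ 7 ^ d * τ * ((P : ℝ) / K) ^ (d + 1) := by
      have h1 : (1 : ℝ) ≤ 7 ^ d := one_le_pow₀ (by norm_num)
      have h2 : (1 : ℝ) ≤ ((P : ℝ) / K) ^ (d + 1) := one_le_pow₀ hPK
      have h3 : τ ≤ 7 ^ d * τ := le_mul_of_one_le_left hτ0 h1
      exact h3.trans (le_mul_of_one_le_right (by positivity) h2)
    rw [e3]
    calc τ + 6 * (7 ^ d * τ * ((P : ℝ) / K) ^ (d + 1))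
        ≤ 7 * (7 ^ d * τ * ((P : ℝ) / K) ^ (d + 1)) := by linarith
      _ = 7 ^ (d + 1) * τ * ((P : ℝ) / K) ^ (d + 1) := by ring

end Pool.Agent.Helper8.UV3
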