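import Pool.Agent.Helper21.UV.Prob
import Pool.Agent.Helper8.UV3.Uni

/-!
Anticoncentration of a polynomial whose top monomial has only big variables.
-/

set_option autoImplicit false
set_option linter.unusedSectionVars false

open Finset
open scoped BigOperators

namespace Pool.Agent.Helper8.UV3

section pure
variable {V : Type} [Fintype V] [DecidableEq V]

/-- The monomials of degree at most `d`. -/
noncomputable def mons (V : Type) [Fintype V] [DecidableEq V] : ℕ → Finset (V →₀ ℕ)
  | 0 => {0}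
  | d + 1 => ((mons V d) ×ˢ (univ : Finset (Option V))).image fun p =>
      match p.2 with
      | none => p.1
      | some e => p.1 + Finsupp.single e 1

theorem card_mons (d : ℕ) : (mons V d).card ≤ (Fintype.card V + 1) ^ d := by
  induction d with
  | zero => simp [mons]
  | succ d ih =>
    rw [mons]
    refine Finset.card_image_le.trans ?_
    rw [Finset.card_product, Finset.card_univ, Fintype.card_option, pow_succ]
    exact Nat.mul_le_mul_right _ ih

theorem mem_mons (d : ℕ) : ∀ u : V →₀ ℕ, u.degree ≤ d → u ∈ mons V d := by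
  induction d with
  | zero =>
    intro u hu
    have : u = 0 := (Finsupp.degree_eq_zero_iff u).1 (Nat.le_zero.1 hu)
    simp [mons, this]
  | succ d ih =>
    intro u hu
    rw [mons, mem_image]
    rcases Nat.lt_or_ge d u.degree with h | h
    · have hne : u ≠ 0 := by
        rintro rfl
        simp at h
      obtain ⟨e, he⟩ := Finsupp.support_nonempty_iff.2 hne
      have hle : Finsupp.single e 1 ≤ u := by
        rw [Finsupp.single_le_iff]
        exact Nat.one_le_iff_ne_zero.2 (Finsupp.mem_support_iff.1 he)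
      have hadd : u - Finsupp.single e 1 + Finsupp.single e 1 = u := tsub_add_cancel_of_le hle
      have hdeg : (u - Finsupp.single e 1).degree + 1 = u.degree := by
        conv_rhs => rw [← hadd]
        rw [map_add, Finsupp.degree_single]
      exact ⟨(u - Finsupp.single e 1, some e), Finset.mem_product.2
        ⟨ih (u - Finsupp.single e 1) (by omega), mem_univ _⟩, hadd⟩
    · exact ⟨(u, none), by rw [mem_product]; exact ⟨ih u h, mem_univ _⟩, rfl⟩

theorem card_deg (d : ℕ) (S : Finset (V →₀ ℕ)) (hS : ∀ u ∈ S, u.degree ≤ d) :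
    S.card ≤ (Fintype.card V + 1) ^ d :=
  (Finset.card_le_card fun u hu => mem_mons d u (hS u hu)).trans (card_mons d)

/-- The part of the polynomial with the exponents of `s` on `T`. -/
noncomputable def GT (g : MvPolynomial V ℝ) (s : V →₀ ℕ) (T : Finset V) (W : V → ℝ) : ℝ :=
  ∑ u ∈ g.support.filter (fun u => ∀ e ∈ T, u e = s e), g.coeff u * ∏ e ∈ univ \ T, W e ^ u e

theorem GT_empty (g : MvPolynomial V ℝ) (s : V →₀ ℕ) (W : V → ℝ) :
    GT g s ∅ W = MvPolynomial.eval W g := by
  unfold GT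
  rw [MvPolynomial.eval_eq']
  simp

theorem GT_indep (g : MvPolynomial V ℝ) (s : V →₀ ℕ) (T : Finset V) (W : V → ℝ) {e : V}
    (he : e ∈ T) (t : ℝ) : GT g s T (Function.update W e t) = GT g s T W := by
  unfold GT
  refine Finset.sum_congr rfl fun u _ => ?_
  congr 1
  refine Finset.prod_congr rfl fun e' he' => ?_
  rw [Function.update_of_ne]
  rintro rfl
  simp [he] at he'

/-- The polynomial in one variable. -/
noncomputable def FT (g : MvPolynomial V ℝ) (s : V →₀ ℕ) (T : Finset V) (W : V → ℝ) (e : V) :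
    Polynomial ℝ :=
  ∑ u ∈ g.support.filter (fun u => ∀ e ∈ T, u e = s e),
    Polynomial.C (g.coeff u * ∏ e' ∈ univ \ insert e T, W e' ^ u e') * Polynomial.X ^ u e

theorem sdiff_insert' (T : Finset V) {e : V} (he : e ∉ T) :
    univ \ T = insert e (univ \ insert e T) := by
  ext x
  simp only [mem_sdiff, mem_univ, true_and, mem_insert, not_or]
  constructor
  · intro hx
    by_cases hxe : x = e
    · exact Or.inl hxe
    · exact Or.inr ⟨hxe, hx⟩
  · rintro (rfl | ⟨_, hx⟩)
    · exact he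
    · exact hx

theorem FT_eval (g : MvPolynomial V ℝ) (s : V →₀ ℕ) (T : Finset V) (W : V → ℝ) {e : V}
    (he : e ∉ T) (t : ℝ) : (FT g s T W e).eval t = GT g s T (Function.update W e t) := by
  unfold FT GT
  rw [Polynomial.eval_finsetSum]
  refine Finset.sum_congr rfl fun u _ => ?_
  rw [Polynomial.eval_mul, Polynomial.eval_C, Polynomial.eval_pow, Polynomial.eval_X,
    sdiff_insert' T he, Finset.prod_insert (by simp), Function.update_self]
  have h1 : ∏ e' ∈ univ \ insert e T, Function.update W e t e' ^ u e' =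
      ∏ e' ∈ univ \ insert e T, W e' ^ u e' := by
    refine Finset.prod_congr rfl fun e' he' => ?_
    rw [Function.update_of_ne]
    rintro rfl
    simp at he'
  rw [h1]
  ring

theorem le_degree (u : V →₀ ℕ) (e : V) : u e ≤ u.degree := by
  rw [Finsupp.degree_eq_sum]
  exact Finset.single_le_sum (f := fun i => u i) (fun i _ => Nat.zero_le _) (mem_univ e)

theorem FT_natDegree (g : MvPolynomial V ℝ) (s : V →₀ ℕ) (T : Finset V) (W : V → ℝ) (e : V)
    (d : ℕ) (hd : ∀ u ∈ g.support, u.degree ≤ d) : (FT g s T W e).natDegree ≤ d := by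
  unfold FT
  refine Polynomial.natDegree_sum_le_of_forall_le _ _ fun u hu => ?_
  refine (Polynomial.natDegree_C_mul_X_pow_le _ _).trans ?_
  exact (le_degree u e).trans (hd u (Finset.mem_of_mem_filter u hu))

theorem FT_coeff (g : MvPolynomial V ℝ) (s : V →₀ ℕ) (T : Finset V) (W : V → ℝ) (e : V) :
    (FT g s T W e).coeff (s e) = GT g s (insert e T) W := by
  unfold FT GT
  rw [Polynomial.finsetSum_coeff]
  simp only [Polynomial.coeff_C_mul_X_pow]
  rw [← Finset.sum_filter, Finset.filter_filter]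
  refine Finset.sum_congr ?_ fun _ _ => rfl
  ext u
  simp only [mem_filter, mem_insert, forall_eq_or_imp]
  constructor
  · rintro ⟨h1, h2, h3⟩
    exact ⟨h1, h3.symm, h2⟩
  · rintro ⟨h1, h2, h3⟩
    exact ⟨h1, h3, h2.symm⟩

theorem GT_top (P : ℝ) (hP : 0 < P) (d : ℕ) (g : MvPolynomial V ℝ)
    (hd : ∀ u ∈ g.support, u.degree ≤ d) (s : V →₀ ℕ) (hs : s ∈ g.support) (Λ : ℝ)
    (hΛ : 8 * ((Fintype.card V + 1 : ℕ) : ℝ) ^ d ≤ Λ)
    (htop : ∀ u ∈ g.support, u ≠ 0 →
      |g.coeff u| * (Λ * P) ^ u.degree ≤ |g.coeff s| * (Λ * P) ^ s.degree)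
    (W : V → ℝ) (hW : ∀ e, |W e| ≤ 2 * P) :
    3 / 4 * |g.coeff s| ≤ |GT g s s.support W| := by
  set N : ℝ := ((Fintype.card V + 1 : ℕ) : ℝ) ^ d with hN
  have hN1 : 1 ≤ N := one_le_pow₀ (by push_cast; linarith [Nat.cast_nonneg (α := ℝ) (Fintype.card V)])
  have hΛ0 : 0 < Λ := by linarith
  have hΛ8 : 8 ≤ Λ := by linarith
  set S := s.support with hS
  set U := g.support.filter (fun u => ∀ e ∈ S, u e = s e) with hU
  have hsU : s ∈ U := by
    rw [hU, mem_filter]
    exact ⟨hs, fun _ _ => rfl⟩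
  have hterm : g.coeff s * ∏ e ∈ univ \ S, W e ^ s e = g.coeff s := by
    rw [Finset.prod_eq_one, mul_one]
    intro e he
    have : s e = 0 := by
      rw [mem_sdiff, hS, Finsupp.mem_support_iff, not_not] at he
      exact he.2
    rw [this, pow_zero]
  have hother : ∀ u ∈ U.erase s, |g.coeff u * ∏ e ∈ univ \ S, W e ^ u e| ≤
      |g.coeff s| * (2 / Λ) := by
    intro u hu
    rw [mem_erase, hU, mem_filter] at hu
    obtain ⟨hne, hug, huS⟩ := hu
    set j := ∑ e ∈ univ \ S, u e with hj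
    have hdeg : u.degree = s.degree + j := by
      rw [Finsupp.degree_eq_sum, Finsupp.degree_eq_sum, ← Finset.sum_sdiff (subset_univ S)
        (f := fun i => u i), ← Finset.sum_sdiff (subset_univ S) (f := fun i => s i)]
      have h1 : ∑ e ∈ S, u e = ∑ e ∈ S, s e := Finset.sum_congr rfl fun e he => huS e he
      have h2 : ∑ e ∈ univ \ S, s e = 0 := by
        refine Finset.sum_eq_zero fun e he => ?_
        rw [mem_sdiff, hS, Finsupp.mem_support_iff, not_not] at he
        exact he.2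
      rw [h1, h2, zero_add, hj, add_comm]
    have hj1 : 1 ≤ j := by
      by_contra hcon
      have hj0 : j = 0 := by omega
      apply hne
      ext e
      by_cases he : e ∈ S
      · exact huS e he
      · have h1 : u e = 0 := by
          have := Finset.sum_eq_zero_iff.1 (hj.symm.trans hj0) e (by simp [he])
          exact this
        have h2 : s e = 0 := by
          rw [hS, Finsupp.mem_support_iff, not_not] at he
          exact he
        rw [h1, h2]
    have hu0 : u ≠ 0 := by
      rintro rfl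
      rw [map_zero] at hdeg
      omega
    have h3 := htop u hug hu0
    rw [hdeg, pow_add] at h3
    have hpos : 0 < (Λ * P) ^ s.degree := by positivity
    have h4 : |g.coeff u| * (Λ * P) ^ j ≤ |g.coeff s| := by
      have h5 : (|g.coeff u| * (Λ * P) ^ j) * (Λ * P) ^ s.degree ≤
          |g.coeff s| * (Λ * P) ^ s.degree := by
        calc (|g.coeff u| * (Λ * P) ^ j) * (Λ * P) ^ s.degree =
            |g.coeff u| * ((Λ * P) ^ s.degree * (Λ * P) ^ j) := by ring
          _ ≤ _ := h3
      exact le_of_mul_le_mul_right h5 hpos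
    have h6 : |∏ e ∈ univ \ S, W e ^ u e| ≤ (2 * P) ^ j := by
      rw [Finset.abs_prod, hj, ← Finset.prod_pow_eq_pow_sum]
      refine Finset.prod_le_prod (fun _ _ => abs_nonneg _) fun e _ => ?_
      rw [abs_pow]
      exact pow_le_pow_left₀ (abs_nonneg _) (hW e) _
    rw [abs_mul]
    have h7 : (2 * P) ^ j = (2 / Λ) ^ j * (Λ * P) ^ j := by
      rw [← mul_pow]
      congr 1
      field_simp
    have h8 : (2 / Λ) ^ j ≤ 2 / Λ := by
      have h9 : 2 / Λ ≤ 1 := by
        rw [div_le_one hΛ0]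
        linarith
      calc (2 / Λ) ^ j ≤ (2 / Λ) ^ 1 := pow_le_pow_of_le_one (by positivity) h9 hj1
        _ = 2 / Λ := pow_one _
    calc |g.coeff u| * |∏ e ∈ univ \ S, W e ^ u e| ≤ |g.coeff u| * (2 * P) ^ j :=
          mul_le_mul_of_nonneg_left h6 (abs_nonneg _)
      _ = (|g.coeff u| * (Λ * P) ^ j) * (2 / Λ) ^ j := by rw [h7]; ring
      _ ≤ |g.coeff s| * (2 / Λ) :=
          mul_le_mul h4 h8 (by positivity) (abs_nonneg _)
  have hcardU : ((U.erase s).card : ℝ) ≤ N := by
    have h1 : (U.erase s).card ≤ (Fintype.card V + 1) ^ d :=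
      card_deg d _ fun u hu => hd u (Finset.mem_of_mem_filter u (Finset.mem_of_mem_erase hu))
    rw [hN]
    exact_mod_cast h1
  have hsum : GT g s S W = g.coeff s + ∑ u ∈ U.erase s, g.coeff u * ∏ e ∈ univ \ S, W e ^ u e := by
    unfold GT
    rw [← Finset.add_sum_erase U _ hsU, hterm]
  have hrest : |∑ u ∈ U.erase s, g.coeff u * ∏ e ∈ univ \ S, W e ^ u e| ≤
      1 / 4 * |g.coeff s| := by
    refine (Finset.abs_sum_le_sum_abs _ _).trans ((Finset.sum_le_sum hother).trans ?_)
    rw [Finset.sum_const, nsmul_eq_mul]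
    have h1 : 0 ≤ |g.coeff s| * (2 / Λ) := by positivity
    calc ((U.erase s).card : ℝ) * (|g.coeff s| * (2 / Λ)) ≤ N * (|g.coeff s| * (2 / Λ)) :=
          mul_le_mul_of_nonneg_right hcardU h1
      _ = (2 * N / Λ) * |g.coeff s| := by ring
      _ ≤ 1 / 4 * |g.coeff s| := by
          refine mul_le_mul_of_nonneg_right ?_ (abs_nonneg _)
          rw [div_le_iff₀ hΛ0]
          linarith
  rw [hsum]
  have h2 := abs_sub_abs_le_abs_sub (g.coeff s)
    (-∑ u ∈ U.erase s, g.coeff u * ∏ e ∈ univ \ S, W e ^ u e)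
  rw [abs_neg, sub_neg_eq_add] at h2
  linarith

end pure

section count
variable {m q P : ℕ}

open Pool.Agent.Helper21.UV Pool.Agent.Helper8.UV Pool.Agent.Helper8.VT

open Classical in
/-- Double counting over one variable. -/
theorem one_count (A : Finset (Key m)) {e : Key m} (he : e ∉ A) (μ0 : Key m → Fin (10 * P))
    (p : (Key m → Fin (10 * P)) → Prop) (N : ℕ)
    (hp : ∀ μ, (univ.filter fun x : Fin (10 * P) =>
      (x : ℕ) < P ∧ p (Function.update μ e x)).card ≤ N) :
    ((fib A μ0).filter fun μ => (μ e : ℕ) < P ∧ p μ).card ≤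
      N * (fib (insert e A) μ0).card := by
  have h0 := fib_partition he μ0 (fun μ => (μ e : ℕ) < P ∧ p μ)
  simp only [fib_update] at h0
  have h0' : ((fib A μ0).filter fun μ => (μ e : ℕ) < P ∧ p μ).card =
      ∑ x, ((fib (insert e A) μ0).filter fun μ =>
        (Function.update μ e x e : ℕ) < P ∧ p (Function.update μ e x)).card := by
    convert h0
  rw [h0']
  have h1 : ∀ x : Fin (10 * P), ((fib (insert e A) μ0).filter fun μ =>
      (Function.update μ e x e : ℕ) < P ∧ p (Function.update μ e x)).card =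
      ∑ μ ∈ fib (insert e A) μ0,
        if ((x : ℕ) < P ∧ p (Function.update μ e x)) then 1 else 0 := fun x => by
    rw [Finset.card_filter]
    simp only [Function.update_self]
  simp only [h1]
  rw [Finset.sum_comm]
  refine (Finset.sum_le_sum (g := fun _ => N) fun μ _ => ?_).trans (le_of_eq ?_)
  · rw [← Finset.card_filter]
    exact hp μ
  · rw [Finset.sum_const, smul_eq_mul, mul_comm]

theorem tot_update [NeZero q] (μ : Key m → Fin (10 * P)) (X Y Z : Cfg m q) (e : Key m)
    (x : Fin (10 * P)) (hx : (x : ℕ) < P) : tot q P (Function.update μ e x) X Y Z =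
      Function.update (tot q P μ X Y Z) e (10 * q + ((val3 X Y Z e).val : ℝ) + (x : ℕ)) := by
  funext e'
  by_cases h : e' = e
  · subst h
    rw [Function.update_self]
    unfold tot mac
    rw [Function.update_self, if_pos hx]
    push_cast
    ring
  · rw [Function.update_of_ne h]
    unfold tot mac
    rw [Function.update_of_ne h]

theorem tot_abs [NeZero q] (hq : 11 * q ≤ P) (μ : Key m → Fin (10 * P)) (X Y Z : Cfg m q)
    (e : Key m) : |tot q P μ X Y Z e| ≤ 2 * P := by
  have h1 : (val3 X Y Z e).val < q := ZMod.val_lt _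
  have h2 : ((val3 X Y Z e).val : ℝ) < q := by exact_mod_cast h1
  have h3 : (11 : ℝ) * q ≤ P := by exact_mod_cast hq
  have h4 : (0 : ℝ) ≤ q := Nat.cast_nonneg q
  unfold tot mac
  split_ifs with h
  · have h5 : ((μ e : ℕ) : ℝ) < P := by exact_mod_cast h
    push_cast
    rw [abs_of_nonneg (by positivity)]
    linarith
  · push_cast
    rw [zero_add, abs_of_nonneg (by positivity)]
    linarith

/-- For fixed other variables, few values of one variable make the part on `T` small and leave the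
part on `insert e T` large. -/
theorem few_x [NeZero q] {d K : ℕ} (hq : 11 * q ≤ P) (hK : 0 < K) (hKP : K ≤ P)
    (X Y Z : Cfg m q) (g : MvPolynomial (Key m) ℝ) (hd : ∀ u ∈ g.support, u.degree ≤ d)
    (s : Key m →₀ ℕ) (T : Finset (Key m)) {e : Key m} (he : e ∉ T) (τ : ℝ)
    (μ : Key m → Fin (10 * P)) (B : Finset (Fin (10 * P)))
    (hB : ∀ x ∈ B, (x : ℕ) < P ∧
      |GT g s T (tot q P (Function.update μ e x) X Y Z)| ≤
        τ * ((P : ℝ) ^ s e * ((K : ℝ) / (7 * P)) ^ d) ∧
      τ < |GT g s (insert e T) (tot q P (Function.update μ e x) X Y Z)|) :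
    B.card ≤ d * K := by
  by_contra hcon
  push Not at hcon
  obtain ⟨x0, hx0⟩ : B.Nonempty := Finset.card_pos.1 (by omega)
  have hKr : (0 : ℝ) < K := by exact_mod_cast hK
  have hP0 : (0 : ℝ) < P := by
    have : 0 < P := lt_of_lt_of_le hK hKP
    exact_mod_cast this
  set W := tot q P μ X Y Z with hW
  set b : ℝ := 10 * q + ((val3 X Y Z e).val : ℝ) with hb
  have hval : ((val3 X Y Z e).val : ℝ) < q := by exact_mod_cast ZMod.val_lt _
  have hq' : (11 : ℝ) * q ≤ P := by exact_mod_cast hq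
  have h := uni d (FT g s T W e) (FT_natDegree g s T W e d hd) P K hK hKP b (by positivity)
    (B.map Fin.valEmbedding) (by
      intro x hx
      rw [mem_map] at hx
      obtain ⟨y, hy, rfl⟩ := hx
      have h1 := (hB y hy).1
      have h2 : ((y : ℕ) : ℝ) < P := by exact_mod_cast h1
      simp only [Fin.valEmbedding_apply]
      linarith) (τ * ((P : ℝ) ^ s e * ((K : ℝ) / (7 * P)) ^ d)) (by
      intro x hx
      rw [mem_map] at hx
      obtain ⟨y, hy, rfl⟩ := hx
      simp only [Fin.valEmbedding_apply]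
      rw [FT_eval g s T W he, ← tot_update μ X Y Z e y (hB y hy).1]
      exact (hB y hy).2.1) (by rw [Finset.card_map]; exact hcon) (s e)
  rw [FT_coeff] at h
  have h1 := (hB x0 hx0).2.2
  rw [tot_update μ X Y Z e x0 (hB x0 hx0).1, GT_indep g s (insert e T) W
    (mem_insert_self e T)] at h1
  have h2 : 7 ^ d * (τ * ((P : ℝ) ^ s e * ((K : ℝ) / (7 * P)) ^ d)) * ((P : ℝ) / K) ^ d =
      τ * (P : ℝ) ^ s e := by
    have h3 : (7 : ℝ) ^ d * ((K : ℝ) / (7 * P)) ^ d * ((P : ℝ) / K) ^ d = 1 := by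
      rw [← mul_pow, ← mul_pow]
      have : (7 : ℝ) * ((K : ℝ) / (7 * P)) * ((P : ℝ) / K) = 1 := by
        field_simp
      rw [this, one_pow]
    calc 7 ^ d * (τ * ((P : ℝ) ^ s e * ((K : ℝ) / (7 * P)) ^ d)) * ((P : ℝ) / K) ^ d =
        τ * (P : ℝ) ^ s e * ((7 : ℝ) ^ d * ((K : ℝ) / (7 * P)) ^ d * ((P : ℝ) / K) ^ d) := by ring
      _ = _ := by rw [h3, mul_one]
  rw [h2] at h
  have h4 := le_of_mul_le_mul_right h (by positivity : (0 : ℝ) < (P : ℝ) ^ s e)
  linarith

/-- The variables in `R` are big and the part on `T` is at most `τ`. -/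
def Bd [NeZero q] (X Y Z : Cfg m q) (g : MvPolynomial (Key m) ℝ) (s : Key m →₀ ℕ)
    (R T : Finset (Key m)) (τ : ℝ) (μ : Key m → Fin (10 * P)) : Prop :=
  (∀ e ∈ R, (μ e : ℕ) < P) ∧ |GT g s T (tot q P μ X Y Z)| ≤ τ

/-- The part on `T` is at most `τ'` and the part on `T'` is larger than `τ`. -/
def Bs [NeZero q] (X Y Z : Cfg m q) (g : MvPolynomial (Key m) ℝ) (s : Key m →₀ ℕ)
    (T T' : Finset (Key m)) (τ' τ : ℝ) (μ : Key m → Fin (10 * P)) : Prop :=
  |GT g s T (tot q P μ X Y Z)| ≤ τ' ∧ τ < |GT g s T' (tot q P μ X Y Z)|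

open Classical in
/-- The parts on the smaller and smaller sets of fixed variables. -/
theorem bad_count [NeZero q] {d K : ℕ} (hq : 11 * q ≤ P) (hK : 0 < K) (hKP : K ≤ P)
    (A : Finset (Key m)) (μ0 : Key m → Fin (10 * P)) (X Y Z : Cfg m q)
    (g : MvPolynomial (Key m) ℝ) (hd : ∀ u ∈ g.support, u.degree ≤ d) (s : Key m →₀ ℕ)
    (hs : s ∈ g.support) (hA : ∀ e ∈ s.support, e ∉ A) (Λ : ℝ)
    (hΛ : 8 * ((Fintype.card (Key m) + 1 : ℕ) : ℝ) ^ d ≤ Λ)
    (htop : ∀ u ∈ g.support, u ≠ 0 →
      |g.coeff u| * (Λ * P) ^ u.degree ≤ |g.coeff s| * (Λ * P) ^ s.degree)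
    (R : Finset (Key m)) : R ⊆ s.support →
    (((fib A μ0).filter fun μ => Bd X Y Z g s R (s.support \ R)
      (|g.coeff s| / 2 * ∏ e ∈ R, ((P : ℝ) ^ s e * ((K : ℝ) / (7 * P)) ^ d)) μ).card : ℝ) ≤
      R.card * (d * K / (10 * P) * (fib A μ0).card) := by
  have hP0 : (0 : ℝ) < P := by
    have : 0 < P := lt_of_lt_of_le hK hKP
    exact_mod_cast this
  induction R using Finset.induction_on with
  | empty =>
    intro _
    have h0 : 0 < |g.coeff s| := abs_pos.2 (MvPolynomial.mem_support_iff.1 hs)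
    have h : ((fib A μ0).filter fun μ => Bd X Y Z g s ∅ (s.support \ ∅)
      (|g.coeff s| / 2 * ∏ e ∈ (∅ : Finset (Key m)),
          ((P : ℝ) ^ s e * ((K : ℝ) / (7 * P)) ^ d)) μ) = ∅ := by
      refine Finset.filter_false_of_mem fun μ _ h => ?_
      have h1 := GT_top (P : ℝ) hP0 d g hd s hs Λ hΛ htop (tot q P μ X Y Z)
        (fun e => tot_abs hq μ X Y Z e)
      have h2 := h.2
      rw [Finset.sdiff_empty, Finset.prod_empty, mul_one] at h2
      linarith
    rw [h]
    simp
  | insert e R he ih =>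
    intro hR
    have hR' : R ⊆ s.support := fun x hx => hR (mem_insert_of_mem hx)
    have heS : e ∈ s.support := hR (mem_insert_self e R)
    set T := s.support \ insert e R with hT
    have heT : e ∉ T := by simp [hT]
    have hT' : s.support \ R = insert e T := by
      ext x
      simp only [hT, mem_sdiff, mem_insert, not_or]
      constructor
      · rintro ⟨h1, h2⟩
        by_cases hx : x = e
        · exact Or.inl hx
        · exact Or.inr ⟨h1, hx, h2⟩
      · rintro (rfl | ⟨h1, _, h2⟩)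
        · exact ⟨heS, he⟩
        · exact ⟨h1, h2⟩
    set τ : ℝ := |g.coeff s| / 2 * ∏ e ∈ R, ((P : ℝ) ^ s e * ((K : ℝ) / (7 * P)) ^ d) with hτ
    have hτ' : |g.coeff s| / 2 * ∏ e ∈ insert e R, ((P : ℝ) ^ s e * ((K : ℝ) / (7 * P)) ^ d) =
        τ * ((P : ℝ) ^ s e * ((K : ℝ) / (7 * P)) ^ d) := by
      rw [Finset.prod_insert he, hτ]
      ring
    rw [hτ']
    have IH := ih hR'
    rw [hT'] at IH
    have hsub : ((fib A μ0).filter fun μ => Bd X Y Z g s (insert e R) T
          (τ * ((P : ℝ) ^ s e * ((K : ℝ) / (7 * P)) ^ d)) μ) ⊆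
        ((fib A μ0).filter fun μ => Bd X Y Z g s R (insert e T) τ μ) ∪
        ((fib A μ0).filter fun μ => (μ e : ℕ) < P ∧ Bs X Y Z g s T (insert e T)
          (τ * ((P : ℝ) ^ s e * ((K : ℝ) / (7 * P)) ^ d)) τ μ) := by
      intro μ hμ
      rw [mem_filter] at hμ
      obtain ⟨h1, h2, h3⟩ := hμ
      rw [mem_union, mem_filter, mem_filter]
      by_cases h4 : |GT g s (insert e T) (tot q P μ X Y Z)| ≤ τ
      · exact Or.inl ⟨h1, fun x hx => h2 x (mem_insert_of_mem hx), h4⟩
      · exact Or.inr ⟨h1, h2 e (mem_insert_self e R), h3, not_le.1 h4⟩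
    have hcount := (Finset.card_le_card hsub).trans (Finset.card_union_le _ _)
    have hone := one_count A (hA e heS) μ0 (fun μ => Bs X Y Z g s T (insert e T)
      (τ * ((P : ℝ) ^ s e * ((K : ℝ) / (7 * P)) ^ d)) τ μ) (d * K) (fun μ => by
      refine few_x hq hK hKP X Y Z g hd s T heT τ μ _ ?_
      intro x hx
      rw [mem_filter] at hx
      exact ⟨hx.2.1, hx.2.2.1, hx.2.2.2⟩)
    have hN : (10 * P : ℝ) * (fib (insert e A) μ0).card = (fib A μ0).card := by
      have := card_fib_insert (hA e heS) μ0 μ0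
      exact_mod_cast this
    have hone' : (((fib A μ0).filter fun μ => (μ e : ℕ) < P ∧ Bs X Y Z g s T (insert e T)
          (τ * ((P : ℝ) ^ s e * ((K : ℝ) / (7 * P)) ^ d)) τ μ).card : ℝ) ≤
        d * K / (10 * P) * (fib A μ0).card := by
      have h1 : (((fib A μ0).filter fun μ => (μ e : ℕ) < P ∧ Bs X Y Z g s T (insert e T)
          (τ * ((P : ℝ) ^ s e * ((K : ℝ) / (7 * P)) ^ d)) τ μ).card : ℝ) ≤
          ((d * K : ℕ) : ℝ) * ((fib (insert e A) μ0).card : ℝ) := by
        exact_mod_cast hone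
      refine h1.trans (le_of_eq ?_)
      rw [← hN]
      push_cast
      field_simp
    have hcount' : (((fib A μ0).filter fun μ => Bd X Y Z g s (insert e R) T
          (τ * ((P : ℝ) ^ s e * ((K : ℝ) / (7 * P)) ^ d)) μ).card : ℝ) ≤
        (((fib A μ0).filter fun μ => Bd X Y Z g s R (insert e T) τ μ).card : ℝ) +
        (((fib A μ0).filter fun μ => (μ e : ℕ) < P ∧ Bs X Y Z g s T (insert e T)
          (τ * ((P : ℝ) ^ s e * ((K : ℝ) / (7 * P)) ^ d)) τ μ).card : ℝ) := by
      exact_mod_cast hcount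
    rw [Finset.card_insert_of_notMem he]
    push_cast
    linarith

open Classical in
/-- A polynomial whose top monomial has only big variables is large, except with small
probability. -/
theorem anti [NeZero q] {d K : ℕ} (hq : 11 * q ≤ P) (hK : 0 < K) (hKP : K ≤ P)
    (A : Finset (Key m)) (μ0 : Key m → Fin (10 * P)) (X Y Z : Cfg m q)
    (g : MvPolynomial (Key m) ℝ) (hd : ∀ u ∈ g.support, u.degree ≤ d) (s : Key m →₀ ℕ)
    (hs : s ∈ g.support) (hA : ∀ e ∈ s.support, e ∉ A) (Λ : ℝ)
    (hΛ : 8 * ((Fintype.card (Key m) + 1 : ℕ) : ℝ) ^ d ≤ Λ)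
    (htop : ∀ u ∈ g.support, u ≠ 0 →
      |g.coeff u| * (Λ * P) ^ u.degree ≤ |g.coeff s| * (Λ * P) ^ s.degree) :
    (((fib A μ0).filter fun μ => (∀ e ∈ s.support, (μ e : ℕ) < P) ∧
      |MvPolynomial.eval (tot q P μ X Y Z) g| ≤
        |g.coeff s| * P ^ s.degree * (1 / 2 * ((K : ℝ) / (7 * P)) ^ (d * d))).card : ℝ) ≤
      d * d * K / (10 * P) * (fib A μ0).card := by
  have hKr : (0 : ℝ) < K := by exact_mod_cast hK
  have hKPr : (K : ℝ) ≤ P := by exact_mod_cast hKP
  have hP0 : (0 : ℝ) < P := lt_of_lt_of_le hKr hKPr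
  have h := bad_count hq hK hKP A μ0 X Y Z g hd s hs hA Λ hΛ htop s.support subset_rfl
  have hcard : s.support.card ≤ d := by
    refine le_trans ?_ (hd s hs)
    rw [Finsupp.degree_apply]
    calc s.support.card = ∑ e ∈ s.support, 1 := by simp
      _ ≤ ∑ e ∈ s.support, s e := Finset.sum_le_sum fun e he =>
          Nat.one_le_iff_ne_zero.2 (Finsupp.mem_support_iff.1 he)
  have hprod : ∏ e ∈ s.support, ((P : ℝ) ^ s e * ((K : ℝ) / (7 * P)) ^ d) =
      (P : ℝ) ^ s.degree * ((K : ℝ) / (7 * P)) ^ (d * s.support.card) := by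
    rw [Finset.prod_mul_distrib, Finset.prod_pow_eq_pow_sum, Finset.prod_const, ← pow_mul,
      Finsupp.degree_apply]
  have hκ : ((K : ℝ) / (7 * P)) ^ (d * d) ≤ ((K : ℝ) / (7 * P)) ^ (d * s.support.card) := by
    refine pow_le_pow_of_le_one (by positivity) ?_ (Nat.mul_le_mul_left d hcard)
    rw [div_le_one (by positivity)]
    linarith
  have hsub : ((fib A μ0).filter fun μ => (∀ e ∈ s.support, (μ e : ℕ) < P) ∧
      |MvPolynomial.eval (tot q P μ X Y Z) g| ≤
        |g.coeff s| * P ^ s.degree * (1 / 2 * ((K : ℝ) / (7 * P)) ^ (d * d))) ⊆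
      ((fib A μ0).filter fun μ => Bd X Y Z g s s.support (s.support \ s.support)
        (|g.coeff s| / 2 * ∏ e ∈ s.support, ((P : ℝ) ^ s e * ((K : ℝ) / (7 * P)) ^ d)) μ) := by
    intro μ hμ
    rw [mem_filter] at hμ ⊢
    obtain ⟨h1, h2, h3⟩ := hμ
    refine ⟨h1, h2, ?_⟩
    rw [Finset.sdiff_self, GT_empty, hprod]
    refine h3.trans ?_
    have h4 : 0 ≤ |g.coeff s| * (P : ℝ) ^ s.degree := by positivity
    calc |g.coeff s| * (P : ℝ) ^ s.degree * (1 / 2 * ((K : ℝ) / (7 * P)) ^ (d * d))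
        ≤ |g.coeff s| * (P : ℝ) ^ s.degree *
          (1 / 2 * ((K : ℝ) / (7 * P)) ^ (d * s.support.card)) :=
          mul_le_mul_of_nonneg_left (by linarith) h4
      _ = _ := by ring
  have h5 : (((fib A μ0).filter fun μ => (∀ e ∈ s.support, (μ e : ℕ) < P) ∧
      |MvPolynomial.eval (tot q P μ X Y Z) g| ≤
        |g.coeff s| * P ^ s.degree * (1 / 2 * ((K : ℝ) / (7 * P)) ^ (d * d))).card : ℝ) ≤
      (((fib A μ0).filter fun μ => Bd X Y Z g s s.support (s.support \ s.support)
        (|g.coeff s| / 2 * ∏ e ∈ s.support,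
          ((P : ℝ) ^ s e * ((K : ℝ) / (7 * P)) ^ d)) μ).card : ℝ) := by
    exact_mod_cast Finset.card_le_card hsub
  refine h5.trans (h.trans ?_)
  have h6 : (s.support.card : ℝ) ≤ d := by exact_mod_cast hcard
  have h7 : (0 : ℝ) ≤ d * K / (10 * P) * (fib A μ0).card := by positivity
  calc (s.support.card : ℝ) * (d * K / (10 * P) * (fib A μ0).card)
      ≤ d * (d * K / (10 * P) * (fib A μ0).card) := mul_le_mul_of_nonneg_right h6 h7
    _ = _ := by ring

end count

end Pool.Agent.Helper8.UV3
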